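import Mathlib
import Pool.Agent.Y703.CQ.Stm

/-!
# Project GD (helper115): the exact proportion for a general modulus

`G` gives a finite set `L` of odd primes, a modulus `Q` with the prime factors `2` and the elements of
`L`, and a set `B` of residues modulo `Q` (the inert primes). A prime `p` is split if it is `1` modulo
`8` and a square modulo all the elements of `L`. `D` runs over the products of different split and
inert primes which are `1` modulo `8` and squares modulo the elements of `L`. The symmetric matrix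
over `𝔽₂` indexed by the split primes of `D` (the Laplacian of the quadratic symbols, plus the symbols
of the inert primes and an arbitrary function on the diagonal) is nonsingular for exactly the
proportion `∏_{i ≥ 0} (1 - 2^{-(2i+1)}) = 0.419...`.

This generalizes project CQ (`Pool.Agent.Y703.CQ`, there `L = {7}`, `Q = 56`). Statements of the parts.
-/

set_option autoImplicit false
set_option linter.unusedVariables false

open scoped Classical

namespace Pool.Agent.U115.GD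

open Finset
open Pool.Agent.Y703.CX (sm la jj XX eL zz kk S_SIE)
open Pool.Agent.Y703.CQ (nr sg prs HB S_EQ S_LA ext c2 S_BIL S_C2)

/-- the data: odd primes, the modulus, the residues of the inert primes -/
structure Cfg where
  L : Finset ℕ
  Q : ℕ
  B : Finset ℕ

/-- `1` modulo `8` and a nonzero square modulo the primes of `L` -/
def Hc (G : Cfg) (n : ℕ) : Prop := n % 8 = 1 ∧ ∀ l ∈ G.L, jacobiSym (n : ℤ) l = 1

/-- the conditions -/
structure Ok (G : Cfg) : Prop where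
  q0 : 0 < G.Q
  q8 : 8 ∣ G.Q
  hL : ∀ l ∈ G.L, l.Prime ∧ l ≠ 2 ∧ l ∣ G.Q
  hQ : ∀ p : ℕ, p.Prime → p ∣ G.Q → p = 2 ∨ p ∈ G.L
  hB : ∀ r ∈ G.B, r < G.Q ∧ Nat.Coprime r G.Q ∧ ¬ Hc G r
  hBn : G.B.Nonempty

/-- the split primes -/
def Sp (G : Cfg) (p : ℕ) : Prop := p.Prime ∧ Hc G p

/-- the inert primes -/
def In (G : Cfg) (r : ℕ) : Prop := r.Prime ∧ r % G.Q ∈ G.B

/-- a function set to zero on the inert primes -/
noncomputable def cu (G : Cfg) (x : ℕ → ZMod 2) (q : ℕ) : ZMod 2 := if Hc G q then x q else 0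

/-- the kernel of the matrix -/
def Sol (G : Cfg) (f : ℕ → ZMod 2) (S : Finset ℕ) (x : ℕ → ZMod 2) : Prop :=
  ∀ p ∈ S, Hc G p → ∑ q ∈ S, nr p q * (cu G x q + x p) + f p * x p = 0

/-- the good sets: the matrix is nonsingular -/
def Gd (G : Cfg) (f : ℕ → ZMod 2) (S : Finset ℕ) : Prop :=
  ∀ x, Sol G f S x → ∀ p ∈ S, Hc G p → x p = 0

/-- the class of the sets of primes -/
def Cl (G : Cfg) (S : Finset ℕ) : Prop := (∀ p ∈ S, Sp G p ∨ In G p) ∧ Hc G (∏ p ∈ S, p)

/-- the sets of the class with product at most `X` -/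
noncomputable def SS (G : Cfg) (X : ℕ) : Finset (Finset ℕ) :=
  (range (X + 1)).powerset.filter fun S => Cl G S ∧ ∏ p ∈ S, p ≤ X

/-- the residues of the split primes -/
noncomputable def AA (G : Cfg) : Finset ℕ :=
  (range G.Q).filter fun r => Nat.Coprime r G.Q ∧ Hc G r

/-- the density of the split primes -/
noncomputable def da (G : Cfg) : ℝ := ((AA G).card : ℝ) / (Nat.totient G.Q : ℝ)

/-- the density of the inert primes -/
noncomputable def db (G : Cfg) : ℝ := (G.B.card : ℝ) / (Nat.totient G.Q : ℝ)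

/-- the density of the primes of the class -/
noncomputable def dl (G : Cfg) : ℝ := da G + db G

/-- FINAL: the proportion of the good sets -/
def S_DQ : Prop := ∀ (G : Cfg) (f : ℕ → ZMod 2), Ok G → Filter.Tendsto
  (fun X : ℕ => (((SS G X).filter (Gd G f)).card : ℝ) / ((SS G X).card : ℝ)) Filter.atTop (nhds c2)

/-- FINAL, in terms of the numbers `D`. -/
def S_DEN : Prop := ∀ (G : Cfg) (f : ℕ → ZMod 2), Ok G → Filter.Tendsto
  (fun X : ℕ => (((Icc 1 X).filter fun D => Squarefree D ∧ Cl G D.primeFactors ∧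
      Gd G f D.primeFactors).card : ℝ) /
    (((Icc 1 X).filter fun D => Squarefree D ∧ Cl G D.primeFactors).card : ℝ))
  Filter.atTop (nhds c2)

/-- GD-NS: the translation. -/
def S_NS : Prop := S_DQ → S_DEN

/-- GD-DA: the density of the split primes is at least `2 ^ -(|L| + 2)`. -/
def S_DA : Prop := ∀ G : Cfg, Ok G → (1 : ℝ) / 2 ^ (G.L.card + 2) ≤ da G

/-- the labels of the large split primes with respect to the small ones are not degenerate -/
def Nd (G : Cfg) (S₀ S₁ : Finset ℕ) : Prop :=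
  ∀ w : ℕ → ZMod 2, (∃ u ∈ S₀, Hc G u ∧ w u ≠ 0) →
    ∃ p ∈ S₁, Hc G p ∧ ∑ u ∈ S₀.filter (fun u => Hc G u), w u * nr p u ≠ 0

/-- GD-BOX: the count in a box (template `Pool/Agent/Y657/CQ/BOX.lean`). -/
def S_BOX : Prop := S_EQ → S_LA → ∀ (G : Cfg) (f : ℕ → ZMod 2) (ι : Type) [Fintype ι]
  [LinearOrder ι] (J1 : Finset ι) (C : ι → Finset ℕ) (X : ι → ℕ) (κ : ℝ) (S₀ : Finset ℕ), Ok G →
  0 ≤ κ → (∀ i, (C i).card ≤ X i) → HB J1 C X κ → (∀ u ∈ S₀, u.Prime ∧ u ≠ 2) →
  (∀ i, ∀ p ∈ C i, p.Prime ∧ p ≠ 2 ∧ p ∉ S₀ ∧ (i ∈ J1 ↔ Hc G p)) →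
  (∀ i l, i ≠ l → Disjoint (C i) (C l)) → (∃ i, i ∉ J1) →
  |(((Fintype.piFinset C).filter fun p => Nd G S₀ (univ.image p) ∧
      Gd G f (S₀ ∪ univ.image p)).card : ℝ) -
      c2 * (((Fintype.piFinset C).filter fun p => Nd G S₀ (univ.image p)).card : ℝ)| ≤
    2 * (4 ^ S₀.card / 2 ^ J1.card) *
      (((Fintype.piFinset C).filter fun p => Nd G S₀ (univ.image p)).card : ℝ) +
    2 ^ ((2 * S₀.card + 1) * Fintype.card ι + (prs J1).card) * (κ * ∏ j, (X j : ℝ))

/-- the regular sets -/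
noncomputable def RR (G : Cfg) (X z H k V : ℕ) : Finset (Finset ℕ) :=
  (SS G X).filter fun S => Set.InjOn (jj H) (la z S : Set ℕ) ∧ S.card ≤ k ∧
    (∏ p ∈ sm z S, p) * ∏ p ∈ la z S, XX H (jj H p) ≤ X ∧
    2 * (sm z S).card + V < ((la z S).filter fun p => Hc G p).card ∧
    ∃ p ∈ la z S, ¬ Hc G p

/-- GD-KEY: the sum over the boxes (template `Pool/Agent/Y703/CQ/Key.lean`; the boxes are labelled by
the number of the block and the residue modulo `Q`). -/
def S_KEY : Prop := S_BIL → S_EQ → S_LA → S_BOX → ∃ C : ℝ, 1 ≤ C ∧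
  ∀ (G : Cfg) (f : ℕ → ZMod 2) (X z H k V N : ℕ) (κ : ℝ), Ok G → 1 ≤ X → 1 ≤ H → 1 ≤ z →
  0 ≤ κ → C ≤ κ ^ 12 * z → (H : ℝ) * Real.log X < N →
  |(((RR G X z H k V).filter fun S => Nd G (sm z S) (la z S) ∧ Gd G f S).card : ℝ) -
      c2 * (((RR G X z H k V).filter fun S => Nd G (sm z S) (la z S)).card : ℝ)| ≤
    2 * (1 / 2 : ℝ) ^ V * ((RR G X z H k V).card : ℝ) +
    (((G.Q : ℝ) + 1) * (N + 1)) ^ k * (3 ^ (3 * k ^ 2) * κ) * (X * (1 + Real.log X))

/-- GD-CNT: sets with many primes, sets near the boundary, sets with two primes in a block (template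
`Pool/Agent/Y391/CQ/CNT.lean`). -/
structure CntP : Prop where
  many : ∀ (G : Cfg) (X k : ℕ), Ok G → 1 ≤ X →
    (((SS G X).filter fun S => k < S.card).card : ℝ) * 2 ^ k ≤ X * (1 + Real.log X)
  cut : ∀ (G : Cfg) (X z H k : ℕ), Ok G → 1 ≤ X → 1 ≤ H →
    (((SS G X).filter fun S => S.card ≤ k ∧
      X < (∏ p ∈ sm z S, p) * ∏ p ∈ la z S, XX H (jj H p)).card : ℝ) ≤ X * k / H + 1
  coll : ∀ (G : Cfg) (X z H : ℕ), Ok G → 1 ≤ X → 1 ≤ H → (((SS G X).filter fun S =>
    ¬ Set.InjOn (jj H) (la z S : Set ℕ)).card : ℝ) ≤ 4 * X * (1 + Real.log X) / H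

/-- the sets of split primes on which the product of the primes in `W` is a square -/
noncomputable def HD (G : Cfg) (W : Finset ℕ) (T : ℕ) : Finset (Finset ℕ) :=
  (range (T + 1)).powerset.filter fun S => (∀ p ∈ S, Sp G p ∧ p ∉ W ∧ ∑ u ∈ W, nr p u = 0) ∧
    ∏ p ∈ S, p ≤ T

/-- GD-HAL: the logarithmic density for a nontrivial quadratic character (template
`Pool/Agent/Y475/CQ/HAL.lean`; the characters are those modulo `4` and `8`, the Jacobi symbols
modulo the elements of `L` and the Jacobi symbol modulo the product of `W`). -/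
def S_HAL : Prop := ∀ G : Cfg, Ok G → ∃ C : ℝ, 1 ≤ C ∧ ∀ (W : Finset ℕ) (T : ℕ), W.Nonempty →
  (∀ u ∈ W, u.Prime ∧ Hc G u) → 2 ≤ T →
  ∑ S ∈ HD G W T, (1 : ℝ) / ((∏ p ∈ S, p : ℕ) : ℝ) ≤
    C * (Real.log ((∏ u ∈ W, u : ℕ) : ℝ)) ^ (1 / 2 : ℝ) *
      (Real.log T) ^ ((1 : ℝ) / 2 ^ (G.L.card + 3))

/-- GD-MER: Mertens' theorem modulo `q`. -/
def S_MER : Prop := ∀ q a : ℕ, 0 < q → Nat.Coprime a q → ∃ C : ℝ, ∀ y : ℕ, 3 ≤ y →
  |∑ p ∈ (range (y + 1)).filter (fun p => p.Prime ∧ p % q = a % q), (1 : ℝ) / p -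
    1 / (Nat.totient q : ℝ) * Real.log (Real.log y)| ≤ C

/-- GD-CHE: many primes in the classes modulo `q`. -/
def S_CHE : Prop := ∀ q : ℕ, 0 < q → ∃ (c : ℝ) (Y₀ : ℕ), 0 < c ∧ ∀ Y : ℕ, Y₀ ≤ Y → ∀ a : ℕ,
  Nat.Coprime a q →
  c * Y / Real.log Y ≤ (((range (Y + 1)).filter fun p => p.Prime ∧ p % q = a % q).card : ℝ)

/-- GD-BAD: few sets have degenerate labels (template `Pool/Agent/Y949/CQ/BAD.lean`). -/
def S_BAD : Prop := S_SIE → S_HAL → S_MER → S_DA → ∀ G : Cfg, Ok G →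
  ∃ (δ C : ℝ) (X₀ : ℕ), 0 < δ ∧ ∀ X : ℕ, X₀ ≤ X →
  (((SS G X).filter fun S => S.card ≤ kk X ∧ ¬ Nd G (sm (zz X) S) (la (zz X) S)).card : ℝ) ≤
    C * X * (Real.log X) ^ (-1 + dl G - δ : ℝ)

/-- GD-FEW: few sets have few large split primes or no large inert prime (template
`Pool/Agent/Y362/CQ/FEW.lean`). -/
def S_FEW : Prop := S_SIE → S_MER → S_DA → ∀ (G : Cfg) (V : ℕ), Ok G →
  ∃ (δ C : ℝ) (X₀ : ℕ), 0 < δ ∧ ∀ X : ℕ, X₀ ≤ X →
  (((SS G X).filter fun S => ((la (zz X) S).filter fun p => Hc G p).card ≤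
      2 * (sm (zz X) S).card + V ∨ ∀ p ∈ la (zz X) S, Hc G p).card : ℝ) ≤
    C * X * (Real.log X) ^ (-1 + dl G - δ : ℝ)

/-- GD-LOW: the lower bound for the size of the class (templates `Pool/Agent/Y302/CQ/LOW.lean` and,
without parity conditions, `Pool/Agent/R413/SQ/LOW.lean`). Choose for every residue `r` modulo `Q` of a
product of split and inert primes a finite set `T r` of such primes with product `r`, let `F` be the
union of the `T r`, count first the sets disjoint from `F` without the condition on the product, take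
the most frequent residue `r` of the products and add `T r`: the product of the new set is `r ^ 2`. -/
def S_LOW : Prop := S_MER → S_CHE → ∀ G : Cfg, Ok G →
  ∃ (c : ℝ) (X₀ : ℕ), 0 < c ∧ ∀ X : ℕ, X₀ ≤ X →
  c * X * (Real.log X) ^ (-1 + dl G : ℝ) ≤ ((SS G X).card : ℝ)

/-! ### basic facts -/

theorem hc_mod {G : Cfg} (h : Ok G) (n : ℕ) : Hc G (n % G.Q) ↔ Hc G n := by
  unfold Hc
  refine and_congr ?_ (forall₂_congr fun l hl => ?_)
  · rw [Nat.mod_mod_of_dvd _ h.q8]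
  · rw [jacobiSym.mod_left' (b := l) (a₁ := ((n % G.Q : ℕ) : ℤ)) (a₂ := (n : ℤ)) ?_]
    rw [← Int.natCast_mod, ← Int.natCast_mod, Nat.mod_mod_of_dvd _ (h.hL l hl).2.2]

theorem hc_mul {G : Cfg} {m n : ℕ} (hm : Hc G m) (hn : Hc G n) : Hc G (m * n) := by
  refine ⟨?_, fun l hl => ?_⟩
  · rw [Nat.mul_mod, hm.1, hn.1]
  · rw [Nat.cast_mul, jacobiSym.mul_left, hm.2 l hl, hn.2 l hl, one_mul]

theorem hc_one (G : Cfg) : Hc G 1 := ⟨rfl, fun l _ => by rw [Nat.cast_one, jacobiSym.one_left]⟩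

/-- the square of a residue prime to the modulus -/
theorem hc_sq {G : Cfg} (h : Ok G) {n : ℕ} (hn : Nat.Coprime n G.Q) : Hc G (n * n) := by
  refine ⟨?_, fun l hl => ?_⟩
  · have h2 : n % 2 = 1 := by
      have h1 : Nat.Coprime n 2 := hn.coprime_dvd_right (dvd_trans (by norm_num) h.q8)
      rcases Nat.mod_two_eq_zero_or_one n with h0 | h0
      · exact absurd (Nat.dvd_gcd (Nat.dvd_of_mod_eq_zero h0) dvd_rfl) (by rw [h1]; norm_num)
      · exact h0
    rw [Nat.mul_mod]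
    have : n % 8 = 1 ∨ n % 8 = 3 ∨ n % 8 = 5 ∨ n % 8 = 7 := by omega
    rcases this with h | h | h | h <;> rw [h]
  · rw [Nat.cast_mul, ← sq]
    refine jacobiSym.sq_one' ?_
    have h1 : Nat.Coprime n l := hn.coprime_dvd_right (h.hL l hl).2.2
    exact h1

theorem pr_of {G : Cfg} {p : ℕ} (h : Sp G p ∨ In G p) : p.Prime := h.elim (fun h => h.1) fun h => h.1

/-- the primes of the class are prime to the modulus -/
theorem cop_of {G : Cfg} (h : Ok G) {p : ℕ} (hp : Sp G p ∨ In G p) : Nat.Coprime p G.Q := by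
  rcases hp with ⟨h1, h2, h3⟩ | ⟨h1, h2⟩
  · rw [Nat.Prime.coprime_iff_not_dvd h1]
    intro h4
    rcases h.hQ p h1 h4 with rfl | h5
    · omega
    · have h6 := h3 p h5
      have : Fact p.Prime := ⟨h1⟩
      rw [← jacobiSym.legendreSym.to_jacobiSym, (legendreSym.eq_zero_iff p p).2 (by simp)] at h6
      exact zero_ne_one h6
  · have h3 := (h.hB _ h2).2.1
    rw [Nat.coprime_iff_gcd_eq_one, ← Nat.gcd_rec, Nat.gcd_comm] at h3
    exact h3

theorem ne_two {G : Cfg} (h : Ok G) {p : ℕ} (hp : Sp G p ∨ In G p) : p ≠ 2 := by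
  rintro rfl
  have h1 := cop_of h hp
  have h2 : (2 : ℕ) ∣ G.Q := dvd_trans (by norm_num) h.q8
  rw [Nat.Prime.coprime_iff_not_dvd Nat.prime_two] at h1
  exact h1 h2

/-- the inert primes are not split -/
theorem in_not {G : Cfg} (h : Ok G) {p : ℕ} (hp : In G p) : ¬ Hc G p := by
  rw [← hc_mod h]
  exact (h.hB _ hp.2).2.2

end Pool.Agent.U115.GD
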