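import Pool.Agent.Y703.CQ.Fin
import Pool.Agent.U295.GD.KEY
import Pool.Agent.U439.GD.BOX
import Pool.Agent.U2.GD.LOW
import Pool.Agent.U643.GD.CNT
import Pool.Agent.U674.GD.BAD
import Pool.Agent.U234.GD.DA
import Pool.Agent.U158.GD.HAL
import Pool.Agent.U998.GD.FEW
import Pool.Agent.U798.GD.ASY

/-!
# Project GD: the law of the random symmetric matrix for a general modulus

The parts were proved by helpers 2, 158, 234, 295, 439, 643, 674, 798 and 998.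
-/

set_option autoImplicit false

namespace Pool.Agent.U115.GD

theorem t_DEN : S_DEN :=
  Pool.Agent.U643.GD.t_NS (Pool.Agent.U798.GD.t_DQ
    Pool.Agent.Y710.CQ.t_BIL Pool.Agent.Y356.CQ.t_EQ
    (Pool.Agent.Y219.CQ.t_LA Pool.Agent.Y839.CQ.t_SYM Pool.Agent.Y948.CQ.t_C2)
    Pool.Agent.U439.GD.t_BOX Pool.Agent.U295.GD.t_KEY Pool.Agent.U643.GD.t_CNT
    Pool.Agent.Y488.CX.t_SIE Pool.Agent.U158.GD.t_HAL Pool.Agent.U674.GD.t_BAD
    Pool.Agent.U998.GD.t_FEW Pool.Agent.U2.GD.t_MER Pool.Agent.U2.GD.t_CHE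
    Pool.Agent.U234.GD.t_DA Pool.Agent.U2.GD.t_LOW Pool.Agent.Y948.CQ.t_C2)

end Pool.Agent.U115.GD
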