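import Mathlib
import Pool.Agent.U115.GD.Stm

/-!
# Project GDK (helper115): the full distribution of the corank

The kernel of the symmetric matrix of project GD has dimension `k` for exactly the proportion
`c2 / ∏_{i=1}^k (2^i - 1)` of the class. Only the linear algebra changes; statements of the parts.
-/

set_option autoImplicit false
set_option linter.unusedVariables false

open scoped Classical

namespace Pool.Agent.U115.GD

open Finset
open Pool.Agent.Y703.CX (sm la jj XX eL zz kk S_SIE)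
open Pool.Agent.Y703.CQ (nr sg prs HB S_EQ S_LA ext c2 S_BIL S_C2 S_SYM)

/-- the limit probability of the corank `k` -/
noncomputable def ck (k : ℕ) : ℝ := c2 / ∏ i ∈ range k, ((2 : ℝ) ^ (i + 1) - 1)

/-- the kernel of the matrix has dimension `k` -/
def GdK (G : Cfg) (f : ℕ → ZMod 2) (k : ℕ) (S : Finset ℕ) : Prop :=
  Nat.card {x : ℕ → ZMod 2 // (∀ p, ¬ (p ∈ S ∧ Hc G p) → x p = 0) ∧ Sol G f S x} = 2 ^ k

/-- the space of the solutions of the block system has dimension `k` -/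
def GdAK {U J : Type} [Fintype U] [Fintype J] (k : ℕ) (U1 : Finset U) (J1 : Finset J)
    (A : U → U → ZMod 2) (B : U → J → ZMod 2) (C : J → U → ZMod 2) (R : J → J → ZMod 2)
    (f : U → ZMod 2) (g : J → ZMod 2) : Prop :=
  Nat.card {z : (U → ZMod 2) × (J → ZMod 2) // (∀ u, u ∉ U1 → z.1 u = 0) ∧
    (∀ l, l ∉ J1 → z.2 l = 0) ∧
    (∀ u ∈ U1, ∑ v, A u v * (z.1 v + z.1 u) + ∑ l, B u l * (z.2 l + z.1 u) + f u * z.1 u = 0) ∧
    (∀ j ∈ J1, ∑ u, C j u * (z.1 u + z.2 j) + ∑ l, R j l * (z.2 l + z.2 j) + g j * z.2 j = 0)} =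
  2 ^ k

/-- the probability that a random symmetric completion has corank `k`, with the constant `C₀`
(compare `Pool.Agent.Y703.CQ.S_LA`) -/
def LAC (k : ℕ) (C₀ : ℝ) : Prop := ∀ (U J : Type) [Fintype U] [Fintype J] [LinearOrder J]
  (U1 : Finset U) (J1 : Finset J), (∃ l, l ∉ J1) → ∀ (A : U → U → ZMod 2) (B : U → J → ZMod 2)
  (C : J → U → ZMod 2) (f : U → ZMod 2) (g : J → ZMod 2),
  (∀ u ∈ U1, ∀ v ∈ U1, A u v = A v u) → (∀ u ∈ U1, ∀ k ∈ J1, B u k = C k u) →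
  (∀ w : U → ZMod 2, (∀ u, u ∉ U1 → w u = 0) → (∃ u, w u ≠ 0) → ∃ k ∈ J1, ∑ u, w u * C k u ≠ 0) →
  |((univ.filter fun α : prs J1 → ZMod 2 => GdAK k U1 J1 A B C (ext α) f g).card : ℝ) /
      2 ^ (prs J1).card - ck k| ≤ C₀ * (4 ^ U1.card / 2 ^ J1.card)

/-- GDK-LA (template `Pool/Agent/Y219/CQ/{Abs,Blk,LA}.lean`): in the reduction `red` of `Abs.lean` the
kernel of `M + π^* T` is isomorphic to the kernel of the random form on `Z` (if `σ z` is in the
double orthogonal complement of the kernel of `π` then it is a sum of an element of the kernel of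
`π` and an element of the radical), and the symmetric forms on a space of dimension `m` with radical
of dimension `k` are the nonsingular forms on the quotients by the subspaces of dimension `k`. -/
def S_LAK : Prop := S_SYM → S_C2 → ∀ k : ℕ, ∃ C₀ : ℝ, 1 ≤ C₀ ∧ LAC k C₀

/-- GDK-BOX (template: the file of GD-BOX, `Pool/Agent/U439/GD/BOX.lean`) -/
def S_BOXK : Prop := S_EQ → ∀ (k : ℕ) (C₀ : ℝ), 1 ≤ C₀ → LAC k C₀ → ∀ (G : Cfg) (f : ℕ → ZMod 2)
  (ι : Type) [Fintype ι] [LinearOrder ι] (J1 : Finset ι) (C : ι → Finset ℕ) (X : ι → ℕ) (κ : ℝ)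
  (S₀ : Finset ℕ), Ok G →
  0 ≤ κ → (∀ i, (C i).card ≤ X i) → HB J1 C X κ → (∀ u ∈ S₀, u.Prime ∧ u ≠ 2) →
  (∀ i, ∀ p ∈ C i, p.Prime ∧ p ≠ 2 ∧ p ∉ S₀ ∧ (i ∈ J1 ↔ Hc G p)) →
  (∀ i l, i ≠ l → Disjoint (C i) (C l)) → (∃ i, i ∉ J1) →
  |(((Fintype.piFinset C).filter fun p => Nd G S₀ (univ.image p) ∧
      GdK G f k (S₀ ∪ univ.image p)).card : ℝ) -
      ck k * (((Fintype.piFinset C).filter fun p => Nd G S₀ (univ.image p)).card : ℝ)| ≤
    C₀ * (4 ^ S₀.card / 2 ^ J1.card) *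
      (((Fintype.piFinset C).filter fun p => Nd G S₀ (univ.image p)).card : ℝ) +
    2 ^ ((2 * S₀.card + 1) * Fintype.card ι + (prs J1).card) * (κ * ∏ j, (X j : ℝ))

/-- GDK-KEY (template: `Pool/Agent/U295/GD/KEY.lean`; `d` is the corank) -/
def S_KEYK : Prop := S_BIL → S_EQ → S_BOXK → ∀ (d : ℕ) (C₀ : ℝ), 1 ≤ C₀ → LAC d C₀ → ∃ C : ℝ, 1 ≤ C ∧
  ∀ (G : Cfg) (f : ℕ → ZMod 2) (X z H k V N : ℕ) (κ : ℝ), Ok G → 1 ≤ X → 1 ≤ H → 1 ≤ z →
  0 ≤ κ → C ≤ κ ^ 12 * z → (H : ℝ) * Real.log X < N →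
  |(((RR G X z H k V).filter fun S => Nd G (sm z S) (la z S) ∧ GdK G f d S).card : ℝ) -
      ck d * (((RR G X z H k V).filter fun S => Nd G (sm z S) (la z S)).card : ℝ)| ≤
    C₀ * (1 / 2 : ℝ) ^ V * ((RR G X z H k V).card : ℝ) +
    (((G.Q : ℝ) + 1) * (N + 1)) ^ k * (3 ^ (3 * k ^ 2) * κ) * (X * (1 + Real.log X))

/-- GDK-ASY (template: `Pool/Agent/U798/GD/ASY.lean`): prove
`theorem t_DQK (h1 : S_BIL) (h3 : S_EQ) (hsy : S_SYM) (hc2 : S_C2) (h4 : S_LAK) (h5 : S_BOXK)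
(hK : S_KEYK) (hC : CntP) (hS : S_SIE) (hH : S_HAL) (hB : S_BAD) (hF : S_FEW) (hM : S_MER)
(hCh : S_CHE) (hD : S_DA) (hLo : S_LOW) : S_DQK` -/
def S_DQK : Prop := ∀ (G : Cfg) (f : ℕ → ZMod 2) (d : ℕ), Ok G → Filter.Tendsto
  (fun X : ℕ => (((SS G X).filter (GdK G f d)).card : ℝ) / ((SS G X).card : ℝ)) Filter.atTop
  (nhds (ck d))

/-- FINAL, in terms of the numbers `D`. -/
def S_DENK : Prop := ∀ (G : Cfg) (f : ℕ → ZMod 2) (d : ℕ), Ok G → Filter.Tendsto
  (fun X : ℕ => (((Icc 1 X).filter fun D => Squarefree D ∧ Cl G D.primeFactors ∧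
      GdK G f d D.primeFactors).card : ℝ) /
    (((Icc 1 X).filter fun D => Squarefree D ∧ Cl G D.primeFactors).card : ℝ))
  Filter.atTop (nhds (ck d))

/-- GDK-NS: the translation (template `t_NS` in `Pool/Agent/U643/GD/CNT.lean`); package NSK asks for
this and for `∑ k, ck k = 1` and the linear algebra statement `GdK G f k S ↔` the corank of
`Pool.Agent.U115.XP.matF f (S.filter fun p => ¬ Hc G p) (S.filter fun p => Hc G p)` is `k`
(compare `Pool.Agent.U115.GE.gd_iffG` in `Pool/Agent/U115/GE/Mat.lean`). -/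
def S_NSK : Prop := S_DQK → S_DENK

/-- the sum of the limit probabilities -/
def S_SUMK : Prop := HasSum ck 1

/-- the dimension of the kernel in terms of the rank of the matrix -/
def S_RKK : Prop := ∀ (G : Cfg) (f : ℕ → ZMod 2) (k : ℕ) (S : Finset ℕ), GdK G f k S ↔
  ∃ M : Matrix (S.filter fun p => Hc G p) (S.filter fun p => Hc G p) (ZMod 2),
    (∀ i j, M i j = if (i : ℕ) = j then f i + ∑ q ∈ S.filter (fun p => ¬ Hc G p), nr i q +
      ∑ p ∈ (S.filter fun p => Hc G p).erase i, nr i p else nr i j) ∧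
    (S.filter fun p => Hc G p).card - M.rank = k

end Pool.Agent.U115.GD
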