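import Pool.Agent.U115.GD.Fin
import Pool.Agent.U756.GD.LAK
import Pool.Agent.U79.GD.BOXK
import Pool.Agent.U958.GD.KEYK
import Pool.Agent.U958.GD.ASYK
import Pool.Agent.U388.GD.NSK

/-!
# Project GDK: the full law of the corank for a general modulus

The parts were proved by helpers 79, 388, 756 and 958 (and the authors of `Pool.Agent.U115.GD.Fin`).
-/

set_option autoImplicit false

namespace Pool.Agent.U115.GD

theorem t_DENK : S_DENK :=
  Pool.Agent.U388.GD.t_NSK (Pool.Agent.U958.GD.t_DQK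
    Pool.Agent.Y710.CQ.t_BIL Pool.Agent.Y356.CQ.t_EQ Pool.Agent.Y839.CQ.t_SYM
    Pool.Agent.Y948.CQ.t_C2 Pool.Agent.U756.GD.t_LAK Pool.Agent.U79.GD.t_BOXK
    Pool.Agent.U958.GD.t_KEYK Pool.Agent.U643.GD.t_CNT
    Pool.Agent.Y488.CX.t_SIE Pool.Agent.U158.GD.t_HAL Pool.Agent.U674.GD.t_BAD
    Pool.Agent.U998.GD.t_FEW Pool.Agent.U2.GD.t_MER Pool.Agent.U2.GD.t_CHE
    Pool.Agent.U234.GD.t_DA Pool.Agent.U2.GD.t_LOW)

end Pool.Agent.U115.GD
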