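import Pool.Agent.U115.GD.Stm
import Pool.Agent.Y687.JQ.Stm

/-!
# Project GD, second part (helper115): the joint exact proportion for a general modulus

`W` is a fixed finite set of primes, `𝒰` a set of `M` different subsets of `W`. For the proportion
`c2 ^ M` of the sets `S` of the class all the symmetric differences `S ∆ U`, `U ∈ 𝒰`, are good.
This generalizes project JQ (`Pool.Agent.Y687.JQ`, there `L = {7}`, `Q = 56`). Statements of the parts.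
-/

set_option autoImplicit false
set_option linter.unusedVariables false

open scoped Classical

namespace Pool.Agent.U115.GD

open Finset
open Pool.Agent.Y703.CX (sm la jj XX eL zz kk S_SIE)
open Pool.Agent.Y703.CQ (nr sg prs HB S_EQ S_LA ext c2 S_BIL S_C2)
open Pool.Agent.Y687.JQ (S_JLA)

/-- jointly good -/
def GdJ (G : Cfg) (f : ℕ → ZMod 2) (𝒰 : Finset (Finset ℕ)) (S : Finset ℕ) : Prop :=
  ∀ U ∈ 𝒰, Gd G f (symmDiff S U)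

/-- the masks -/
def OkW (G : Cfg) (W : Finset ℕ) (𝒰 : Finset (Finset ℕ)) : Prop :=
  (∀ u ∈ W, u.Prime ∧ u ≠ 2 ∧ u ∉ G.L) ∧ ∀ U ∈ 𝒰, U ⊆ W

/-- FINAL: the proportion of the jointly good sets -/
def S_JDQ : Prop := ∀ (G : Cfg) (f : ℕ → ZMod 2) (W : Finset ℕ) (𝒰 : Finset (Finset ℕ)),
  Ok G → OkW G W 𝒰 → Filter.Tendsto
    (fun X : ℕ => (((SS G X).filter (GdJ G f 𝒰)).card : ℝ) / ((SS G X).card : ℝ))
    Filter.atTop (nhds (c2 ^ 𝒰.card))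

/-- FINAL, in terms of the numbers `D`. -/
def S_JDEN : Prop := ∀ (G : Cfg) (f : ℕ → ZMod 2) (W : Finset ℕ) (𝒰 : Finset (Finset ℕ)),
  Ok G → OkW G W 𝒰 → Filter.Tendsto
  (fun X : ℕ => (((Icc 1 X).filter fun D => Squarefree D ∧ Cl G D.primeFactors ∧
      GdJ G f 𝒰 D.primeFactors).card : ℝ) /
    (((Icc 1 X).filter fun D => Squarefree D ∧ Cl G D.primeFactors).card : ℝ))
  Filter.atTop (nhds (c2 ^ 𝒰.card))

/-- the labels of the large primes `S₁` with respect to the small ones `S₀` and to `W` are not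
degenerate, and they separate the masks -/
def NdJ (G : Cfg) (R : ℕ) (W : Finset ℕ) (𝒰 : Finset (Finset ℕ)) (S₀ S₁ : Finset ℕ) : Prop :=
  Nd G (S₀ ∪ W) S₁ ∧ 2 * (S₀ ∪ W).card + R ≤ (S₁.filter fun p => Hc G p).card ∧
    ∀ U ∈ 𝒰, ∀ U' ∈ 𝒰, U ≠ U' → 2 * (S₀ ∪ W).card + R ≤
      (S₁.filter fun p => Hc G p ∧ ∑ u ∈ symmDiff U U', nr p u ≠ 0).card

/-- GD-JBOX: the count in a box (template `Pool/Agent/Y697/JQ/BOX.lean`). -/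
def S_JBOX : Prop := S_EQ → S_JLA → ∀ (M : ℕ) (ε : ℝ), 0 < ε → ∃ R : ℕ, ∀ (G : Cfg)
  (f : ℕ → ZMod 2)
  (ι : Type) [Fintype ι] [LinearOrder ι] (J1 : Finset ι) (C : ι → Finset ℕ) (X : ι → ℕ) (κ : ℝ)
  (S₀ W : Finset ℕ) (𝒰 : Finset (Finset ℕ)), Ok G → 𝒰.card = M → (∀ U ∈ 𝒰, U ⊆ W) → 0 ≤ κ →
  (∀ i, (C i).card ≤ X i) → HB J1 C X κ → (∀ u ∈ S₀ ∪ W, u.Prime ∧ u ≠ 2) →
  (∀ i, ∀ p ∈ C i, p.Prime ∧ p ≠ 2 ∧ p ∉ S₀ ∪ W ∧ (i ∈ J1 ↔ Hc G p)) →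
  (∀ i l, i ≠ l → Disjoint (C i) (C l)) → (∃ i, i ∉ J1) →
  |(((Fintype.piFinset C).filter fun p => NdJ G R W 𝒰 S₀ (univ.image p) ∧
      GdJ G f 𝒰 (S₀ ∪ univ.image p)).card : ℝ) -
      c2 ^ M * (((Fintype.piFinset C).filter fun p => NdJ G R W 𝒰 S₀ (univ.image p)).card : ℝ)| ≤
    ε * (((Fintype.piFinset C).filter fun p => NdJ G R W 𝒰 S₀ (univ.image p)).card : ℝ) +
    2 ^ ((2 * (S₀ ∪ W).card + 1) * Fintype.card ι + (prs J1).card) * (κ * ∏ j, (X j : ℝ))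

/-- GD-JKEY: the sum over the boxes (template `Pool/Agent/Y687/JQ/KeyC.lean`). -/
def S_JKEY : Prop := S_BIL → S_EQ → S_JLA → S_JBOX → ∀ (M : ℕ) (ε : ℝ), 0 < ε →
  ∃ (R : ℕ) (C : ℝ), 1 ≤ C ∧
  ∀ (G : Cfg) (f : ℕ → ZMod 2) (X z H k V N : ℕ) (κ : ℝ) (W : Finset ℕ)
  (𝒰 : Finset (Finset ℕ)), 𝒰.card = M → OkW G W 𝒰 → (∀ u ∈ W, u ≤ z) → W.card ≤ k →
  Ok G → 1 ≤ X → 1 ≤ H → 1 ≤ z → 0 ≤ κ → C ≤ κ ^ 12 * z → (H : ℝ) * Real.log X < N →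
  |(((RR G X z H k V).filter fun S => NdJ G R W 𝒰 (sm z S) (la z S) ∧ GdJ G f 𝒰 S).card : ℝ) -
      c2 ^ M * (((RR G X z H k V).filter fun S => NdJ G R W 𝒰 (sm z S) (la z S)).card : ℝ)| ≤
    ε * ((RR G X z H k V).card : ℝ) +
    (((G.Q : ℝ) + 1) * (N + 1)) ^ k * (3 ^ (6 * k ^ 2) * κ) * (X * (1 + Real.log X))

/-- GD-JBAD: few sets have degenerate labels (template `Pool/Agent/Y697/JQ/BAD.lean`). -/
def S_JBAD : Prop := S_SIE → S_HAL → S_MER → S_DA → ∀ (G : Cfg) (W : Finset ℕ), Ok G →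
  (∀ u ∈ W, u.Prime ∧ u ≠ 2 ∧ u ∉ G.L) → ∃ (δ C : ℝ) (X₀ : ℕ), 0 < δ ∧ ∀ X : ℕ, X₀ ≤ X →
  (((SS G X).filter fun S => S.card ≤ kk X ∧
      ¬ Nd G (sm (zz X) S ∪ W) (la (zz X) S)).card : ℝ) ≤
    C * X * (Real.log X) ^ (-1 + dl G - δ : ℝ)

/-- GD-JMER: Mertens' theorem for the split primes on which a product of primes is not a square
(template `Pool/Agent/Y405/JQ/MER.lean`). -/
def S_JMER : Prop := ∀ (G : Cfg) (e : Finset ℕ), Ok G → e.Nonempty →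
  (∀ u ∈ e, u.Prime ∧ u ≠ 2 ∧ u ∉ G.L) → ∃ C : ℝ, ∀ y : ℕ, 3 ≤ y →
  |∑ p ∈ (range (y + 1)).filter (fun p => Sp G p ∧ p ∉ e ∧ ∑ u ∈ e, nr p u ≠ 0), (1 : ℝ) / p -
    da G / 2 * Real.log (Real.log y)| ≤ C

/-- GD-JFEW: few sets have few large split primes on which a product of primes is not a square
(template `Pool/Agent/Y362/JQ/FEW.lean`). -/
def S_JFEW : Prop := S_SIE → S_MER → S_DA → S_JMER → ∀ (G : Cfg) (e : Finset ℕ) (R : ℕ), Ok G →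
  e.Nonempty → (∀ u ∈ e, u.Prime ∧ u ≠ 2 ∧ u ∉ G.L) →
  ∃ (δ C : ℝ) (X₀ : ℕ), 0 < δ ∧ ∀ X : ℕ, X₀ ≤ X →
  (((SS G X).filter fun S => ((la (zz X) S).filter fun p => Hc G p ∧
      ∑ u ∈ e, nr p u ≠ 0).card < 2 * (sm (zz X) S).card + R).card : ℝ) ≤
    C * X * (Real.log X) ^ (-1 + dl G - δ : ℝ)

end Pool.Agent.U115.GD
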