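import Pool.Agent.U115.GD.Fin
import Pool.Agent.Y697.JQ.LA
import Pool.Agent.U79.GD.JBOX
import Pool.Agent.U642.GD.JKEY
import Pool.Agent.U2.GD.JBAD
import Pool.Agent.U410.GD.JFEW
import Pool.Agent.U488.GD.JMER
import Pool.Agent.U937.GD.JASY

/-!
# Project GD: the joint law for a general modulus

The parts were proved by helpers 2, 79, 410, 488, 642, 937 (and the authors of
`Pool.Agent.U115.GD.Fin`); the linear algebra is helper697's in the starting library.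
-/

set_option autoImplicit false

namespace Pool.Agent.U115.GD

theorem t_JDEN : S_JDEN :=
  Pool.Agent.U937.GD.t_JNS (Pool.Agent.U937.GD.t_JDQ
    Pool.Agent.Y710.CQ.t_BIL Pool.Agent.Y356.CQ.t_EQ Pool.Agent.Y697.JQ.t_JLA
    Pool.Agent.U79.GD.t_JBOX Pool.Agent.U642.GD.t_JKEY Pool.Agent.U643.GD.t_CNT
    Pool.Agent.Y488.CX.t_SIE Pool.Agent.U158.GD.t_HAL Pool.Agent.U2.GD.t_JBAD
    Pool.Agent.U998.GD.t_FEW Pool.Agent.U410.GD.t_JFEW Pool.Agent.U2.GD.t_MER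
    Pool.Agent.U488.GD.t_JMER Pool.Agent.U2.GD.t_CHE
    Pool.Agent.U234.GD.t_DA Pool.Agent.U2.GD.t_LOW Pool.Agent.Y948.CQ.t_C2)

end Pool.Agent.U115.GD
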